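import Pool.Agent.Lib.MP_d8e360_co.Sep

/-!
From separating systems to colourings of the `(2d-1)`-subsets.
-/

set_option autoImplicit false

namespace Pool.Agent.Lib.MP_d8e360_co

theorem exists_level (x y : ℕ) : ∃ k, x / 2 ^ k = y / 2 ^ k := by
  refine ⟨x + y, ?_⟩
  have h1 : x < 2 ^ (x + y) := lt_of_lt_of_le Nat.lt_two_pow_self
    (Nat.pow_le_pow_right (by norm_num) (by omega))
  have h2 : y < 2 ^ (x + y) := lt_of_lt_of_le Nat.lt_two_pow_self
    (Nat.pow_le_pow_right (by norm_num) (by omega))
  rw [Nat.div_eq_of_lt h1, Nat.div_eq_of_lt h2]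

/-- The level at which `x` and `y` split in the binary tree. -/
def lev (x y : ℕ) : ℕ := Nat.find (exists_level x y)

theorem lev_spec (x y : ℕ) : x / 2 ^ lev x y = y / 2 ^ lev x y := Nat.find_spec (exists_level x y)

theorem lev_min {x y k : ℕ} (h : k < lev x y) : x / 2 ^ k ≠ y / 2 ^ k :=
  Nat.find_min (exists_level x y) h

theorem lev_le {x y L : ℕ} (hx : x < 2 ^ L) (hy : y < 2 ^ L) : lev x y ≤ L :=
  Nat.find_min' _ (by rw [Nat.div_eq_of_lt hx, Nat.div_eq_of_lt hy])

theorem lev_ne {x y z : ℕ} (hxy : x < y) (hyz : y < z) : lev x y ≠ lev y z := by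
  intro h
  have hpos : 0 < lev x y := by
    by_contra h0
    have h0' : lev x y = 0 := by omega
    have := lev_spec x y
    rw [h0'] at this
    simp at this
    omega
  obtain ⟨k, hk⟩ : ∃ k, lev x y = k + 1 := ⟨lev x y - 1, by omega⟩
  have h1 := lev_spec x y
  have h2 := lev_spec y z
  have h3 : x / 2 ^ k ≠ y / 2 ^ k := lev_min (by omega)
  have h4 : y / 2 ^ k ≠ z / 2 ^ k := lev_min (by omega)
  rw [← h, hk, pow_succ, ← Nat.div_div_eq_div_mul, ← Nat.div_div_eq_div_mul] at h2
  rw [hk, pow_succ, ← Nat.div_div_eq_div_mul, ← Nat.div_div_eq_div_mul] at h1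
  have h5 : x / 2 ^ k ≤ y / 2 ^ k := Nat.div_le_div_right hxy.le
  have h6 : y / 2 ^ k ≤ z / 2 ^ k := Nat.div_le_div_right hyz.le
  omega

/-- If few values are taken and only neighbours can have equal values, the indices are paired. -/
theorem paired {γ : Type} [DecidableEq γ] (d : ℕ) (g : ℕ → γ) (Z : Finset γ) (hZ : Z.card ≤ d)
    (hg : ∀ k, k < 2 * d → g k ∈ Z)
    (hne : ∀ k k', k < k' → k' < 2 * d → g k = g k' → k' = k + 1) :
    ∀ i, i < d → g (2 * i) = g (2 * i + 1) := by
  have hinj : Set.InjOn (fun i => g (2 * i)) (Finset.range d : Set ℕ) := by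
    intro i hi j hj h
    simp only [Finset.coe_range, Set.mem_Iio] at hi hj
    rcases lt_trichotomy i j with hlt | heq | hlt
    · have := hne (2 * i) (2 * j) (by omega) (by omega) h
      omega
    · exact heq
    · have := hne (2 * j) (2 * i) (by omega) (by omega) h.symm
      omega
  have himg : (Finset.range d).image (fun i => g (2 * i)) = Z := by
    apply Finset.eq_of_subset_of_card_le
    · intro z hz
      obtain ⟨i, hi, rfl⟩ := Finset.mem_image.1 hz
      rw [Finset.mem_range] at hi
      exact hg _ (by omega)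
    · rw [Finset.card_image_of_injOn hinj, Finset.card_range]
      exact hZ
  have step : ∀ i, i < d → g (2 * i) = g (2 * i + 1) ∨ (i + 1 < d ∧ g (2 * i + 1) = g (2 * i + 2)) := by
    intro i hi
    have h1 : g (2 * i + 1) ∈ Z := hg _ (by omega)
    rw [← himg] at h1
    obtain ⟨j, hj, hjg⟩ := Finset.mem_image.1 h1
    rw [Finset.mem_range] at hj
    rcases lt_trichotomy (2 * j) (2 * i + 1) with hlt | heq | hlt
    · have := hne (2 * j) (2 * i + 1) hlt (by omega) hjg
      left
      have : j = i := by omega
      rw [this] at hjg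
      exact hjg
    · omega
    · have h2 := hne (2 * i + 1) (2 * j) hlt (by omega) hjg.symm
      right
      have h3 : j = i + 1 := by omega
      subst h3
      exact ⟨hj, hjg.symm⟩
  have main : ∀ t i, i + t + 1 = d → g (2 * i) = g (2 * i + 1) := by
    intro t
    induction t with
    | zero =>
      intro i hi
      rcases step i (by omega) with h | ⟨h, _⟩
      · exact h
      · omega
    | succ t ih =>
      intro i hi
      rcases step i (by omega) with h | ⟨_, h⟩
      · exact h
      · exfalso
        have h1 := ih (i + 1) (by omega)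
        have h2 : g (2 * i + 1) = g (2 * i + 3) := by
          rw [h]
          have : 2 * (i + 1) = 2 * i + 2 := by ring
          rw [this] at h1
          exact h1
        have := hne (2 * i + 1) (2 * i + 3) (by omega) (by omega) h2
        omega
  intro i hi
  exact main (d - 1 - i) i (by omega)

/-- Value at `k` of an enumeration with `K` entries, a default value beyond. -/
def ext {n K : ℕ} (y : Fin K → Fin n) (z : Fin n) (k : ℕ) : Fin n :=
  if h : k < K then y ⟨k, h⟩ else z

/-- The pairs seen by player `i`. -/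
def prs {n : ℕ} (d : ℕ) (y : ℕ → Fin n) (i : Fin d) : Fin d → Fin n × Fin n := fun j =>
  if (j : ℕ) < i then (y (2 * j), y (2 * j + 1)) else (y (2 * j - 1), y (2 * j))

theorem coloring {n d L : ℕ} {R : Type} (hd : 1 ≤ d) (hn : n ≤ 2 ^ L)
    (hsep : Sep (Fin d) (Fin n) R) :
    ∃ c : Finset (Fin n) → Option ((Fin (2 * d - 1) → Fin (L + 1)) × (Fin d → R)),
      ∀ [DecidableEq (Option ((Fin (2 * d - 1) → Fin (L + 1)) × (Fin d → R)))],
      ∀ S : Finset (Fin n), S.card = 2 * d →
        d + 1 ≤ ((S.powersetCard (2 * d - 1)).image c).card := by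
  classical
  obtain ⟨χ, hχ1, hχ2⟩ := hsep
  have hlt : ∀ x : Fin n, (x : ℕ) < 2 ^ L := fun x => lt_of_lt_of_le x.2 hn
  -- the data of an enumeration
  let data : (Fin (2 * d - 1) → Fin n) → (Fin (2 * d - 1) → Fin (L + 1)) × (Fin d → R) :=
    fun y =>
      let z : Fin n := y ⟨0, by omega⟩
      (fun j => ⟨lev (ext y z j) (ext y z (j + 1)), Nat.lt_succ_of_le (lev_le (hlt _) (hlt _))⟩,
       fun i => χ i (prs d (ext y z) i) (ext y z (2 * i)))
  refine ⟨fun T => if h : T.card = 2 * d - 1 then some (data (T.orderEmbOfFin h)) else none, ?_⟩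
  intro _ S hS
  by_contra hcon
  push Not at hcon
  obtain ⟨K, hK⟩ : ∃ K, 2 * d = K + 1 := ⟨2 * d - 1, by omega⟩
  have hK' : 2 * d - 1 = K := by omega
  let x : Fin (2 * d) → Fin n := S.orderEmbOfFin hS
  have hxmono : StrictMono x := (S.orderEmbOfFin hS).strictMono
  have hxmem : ∀ i, x i ∈ S := fun i => Finset.orderEmbOfFin_mem S hS i
  let X : ℕ → Fin n := ext x (x ⟨0, by omega⟩)
  have hX : ∀ k (hk : k < 2 * d), X k = x ⟨k, hk⟩ := fun k hk => dif_pos hk
  have hXmono : ∀ k k', k < k' → k' < 2 * d → X k < X k' := by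
    intro k k' h h'
    rw [hX k (by omega), hX k' h']
    exact hxmono (Fin.mk_lt_mk.2 h)
  -- the enumeration of `S` without its `m`-th element
  let Y : ℕ → ℕ → Fin n := fun m k => if k < m then X k else X (k + 1)
  have hTcard : ∀ m, m < 2 * d → (S.erase (X m)).card = 2 * d - 1 := by
    intro m hm
    rw [Finset.card_erase_of_mem (by rw [hX m hm]; exact hxmem _), hS]
  have hYenum : ∀ m (hm : m < 2 * d), (fun k : Fin (2 * d - 1) => Y m k) =
      (S.erase (X m)).orderEmbOfFin (hTcard m hm) := by
    intro m hm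
    apply Finset.orderEmbOfFin_unique
    · intro k
      have hk := k.2
      rw [Finset.mem_erase]
      simp only [Y]
      split_ifs with h
      · exact ⟨(hXmono _ _ h hm).ne, by rw [hX k (by omega)]; exact hxmem _⟩
      · exact ⟨(hXmono m (k + 1) (by omega) (by omega)).ne', by
          rw [hX (k + 1) (by omega)]; exact hxmem _⟩
    · intro k k' hkk
      have h1 := k.2
      have h2 := k'.2
      have h3 : (k : ℕ) < k' := hkk
      simp only [Y]
      split_ifs with ha hb hb
      · exact hXmono _ _ h3 (by omega)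
      · exact hXmono _ _ (by omega) (by omega)
      · omega
      · exact hXmono _ _ (by omega) (by omega)
  let g : ℕ → Option ((Fin (2 * d - 1) → Fin (L + 1)) × (Fin d → R)) := fun m =>
    if h : (S.erase (X m)).card = 2 * d - 1 then
      some (data ((S.erase (X m)).orderEmbOfFin h)) else none
  have hgval : ∀ m, m < 2 * d → g m = some (data (fun k => Y m k)) := by
    intro m hm
    have : g m = some (data ((S.erase (X m)).orderEmbOfFin (hTcard m hm))) :=
      dif_pos (hTcard m hm)
    rw [this, ← hYenum m hm]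
  have hext : ∀ m z k, k < 2 * d - 1 → ext (fun k : Fin (2 * d - 1) => Y m k) z k = Y m k :=
    fun m z k hk => dif_pos hk
  have hpair := paired d g _ (Nat.lt_succ_iff.1 hcon) (by
    intro m hm
    refine Finset.mem_image.2 ⟨S.erase (X m), ?_, rfl⟩
    rw [Finset.mem_powersetCard]
    exact ⟨Finset.erase_subset _ _, hTcard m hm⟩) (by
    intro m m' hmm hm' heq
    by_contra hne
    have hm2 : m + 2 ≤ m' := by omega
    rw [hgval m (by omega), hgval m' hm'] at heq
    have h1 := congrArg Prod.fst (Option.some_injective _ heq)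
    have h2 := congrFun h1 ⟨m, by omega⟩
    have h3 := congrArg Fin.val h2
    simp only [data] at h3
    rw [hext m _ m (by omega), hext m' _ m (by omega), hext m _ (m + 1) (by omega),
      hext m' _ (m + 1) (by omega)] at h3
    simp only [Y] at h3
    rw [if_neg (by omega), if_neg (by omega), if_pos (by omega), if_pos (by omega)] at h3
    exact lev_ne (hXmono m (m + 1) (by omega) (by omega))
      (hXmono (m + 1) (m + 2) (by omega) (by omega)) h3.symm)
  -- the family of pairs
  obtain ⟨i, hi⟩ := hχ2 (fun j => (X (2 * j), X (2 * j + 1))) (by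
    intro j
    exact (hXmono _ _ (by omega) (by have := j.2; omega)).ne)
  have hid := i.2
  have h1 := hpair i hid
  rw [hgval _ (by omega), hgval _ (by omega)] at h1
  have h2 := congrFun (congrArg Prod.snd (Option.some_injective _ h1)) i
  simp only [data] at h2
  rw [hext _ _ (2 * i) (by omega), hext _ _ (2 * i) (by omega)] at h2
  have hprs : ∀ m, (m = 2 * (i : ℕ) ∨ m = 2 * (i : ℕ) + 1) → ∀ z,
      χ i (prs d (ext (fun k : Fin (2 * d - 1) => Y m k) z) i) =
        χ i (fun j => (X (2 * j), X (2 * j + 1))) := by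
    intro m hm z
    apply hχ1
    intro j hj
    have hjd := j.2
    have hji : (j : ℕ) ≠ i := fun h => hj (Fin.ext h)
    simp only [prs]
    split_ifs with hlt
    · rw [hext _ _ _ (by omega), hext _ _ _ (by omega)]
      simp only [Y]
      rw [if_pos (by omega), if_pos (by omega)]
    · rw [hext _ _ _ (by omega), hext _ _ _ (by omega)]
      simp only [Y]
      rw [if_neg (by omega), if_neg (by omega)]
      congr 1
      congr 1
      omega
  rw [hprs (2 * i) (Or.inl rfl), hprs (2 * i + 1) (Or.inr rfl)] at h2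
  apply hi
  simp only [Y] at h2
  rw [if_neg (by omega), if_pos (by omega)] at h2
  exact h2.symm

end Pool.Agent.Lib.MP_d8e360_co
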