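import Pool.Agent.Lib.MP_d8e360_co.Grow
import Pool.Agent.Lib.MP_d8e360_co.Delta

/-!
Asymptotics: exponents and the final bound.
-/

set_option autoImplicit false

open Filter Topology Asymptotics

namespace Pool.Agent.Lib.MP_d8e360_co

theorem exists_grow (d : ℕ) (hd : 1 ≤ d) :
    ∀ e : ℝ, e < d → ∃ α β : ℕ, 1 ≤ α ∧ 1 ≤ β ∧ e * β < α ∧ Grow d α β := by
  induction d, hd using Nat.le_induction with
  | base =>
    intro e he
    exact ⟨1, 1, le_refl _, le_refl _, by simpa using he, grow_base⟩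
  | succ d hd ih =>
    intro e he
    have hd0 : (0 : ℝ) < d := by exact_mod_cast hd
    have hlt : e * d / (d + 1) < d := by
      rw [div_lt_iff₀ (by positivity)]
      push_cast at he
      nlinarith
    obtain ⟨α, β, hα, hβ, hαβ, hG⟩ := ih ((e * d / (d + 1) + d) / 2) (by linarith)
    set e' : ℝ := (e * d / (d + 1) + d) / 2 with he'
    have hβ0 : (0 : ℝ) < β := by exact_mod_cast hβ
    have hee : e < e' * (1 + 1 / d) := by
      have h1 : e * d / (d + 1) < e' := by rw [he']; linarith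
      have h2 : e = e * d / (d + 1) * (1 + 1 / d) := by field_simp
      rw [h2]
      exact mul_lt_mul_of_pos_right h1 (by positivity)
    have hpos : 0 < (α : ℝ) * (1 + 1 / d) - e * β := by
      have h1 : e * β < e' * (1 + 1 / d) * β := mul_lt_mul_of_pos_right hee hβ0
      have h2 : e' * β * (1 + 1 / d) < α * (1 + 1 / d) :=
        mul_lt_mul_of_pos_right hαβ (by positivity)
      nlinarith
    obtain ⟨m, hm⟩ := exists_nat_gt (1 / ((α : ℝ) * (1 + 1 / d) - e * β))
    have hm1 : 1 < m * ((α : ℝ) * (1 + 1 / d) - e * β) := by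
      rwa [div_lt_iff₀ hpos] at hm
    have hm0 : 1 ≤ m := by
      rcases Nat.eq_zero_or_pos m with h | h
      · rw [h] at hm1; norm_num at hm1
      · exact h
    have hmα : 1 ≤ m * α := Nat.one_le_iff_ne_zero.2 (by positivity)
    have hγ1 : d * ((m * α - 1) / d) + 1 ≤ m * α := by
      have := Nat.mul_div_le (m * α - 1) d
      omega
    have hγ2 : (m * α : ℝ) / d - 1 ≤ (((m * α - 1) / d : ℕ) : ℝ) := by
      have h1 := Nat.lt_mul_div_succ (m * α - 1) (by omega : 0 < d)
      have h2 : m * α ≤ d * ((m * α - 1) / d + 1) := by omega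
      have h3 : (m * α : ℝ) ≤ d * (((m * α - 1) / d : ℕ) + 1) := by exact_mod_cast h2
      rw [sub_le_iff_le_add, div_le_iff₀ hd0]
      linarith
    refine ⟨m * α + (m * α - 1) / d, m * β, hmα.trans (Nat.le_add_right _ _),
      Nat.one_le_iff_ne_zero.2 (by positivity), ?_,
      (hG.scale m).step hγ1 hd⟩
    push_cast
    have h3 : (m : ℝ) * ((α : ℝ) * (1 + 1 / d) - e * β) = m * α + m * α / d - e * (m * β) := by
      field_simp
    rw [h3] at hm1
    linarith

theorem eventually_bound (A B : ℝ) (s s' : ℝ) (hs : 0 < s) (hss : s' < s) :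
    ∀ᶠ x : ℝ in atTop, A * x ^ s' + B * Real.log x ≤ x ^ s := by
  have h1 : ∀ᶠ x : ℝ in atTop, A * x ^ s' ≤ 1 / 2 * x ^ s := by
    have ht := tendsto_rpow_atTop (sub_pos.2 hss)
    filter_upwards [ht.eventually_ge_atTop (2 * A), eventually_gt_atTop 0] with x hx hx0
    have h2 : x ^ s = x ^ (s - s') * x ^ s' := by
      rw [← Real.rpow_add hx0]; congr 1; ring
    have h3 : 0 < x ^ s' := Real.rpow_pos_of_pos hx0 _
    rw [h2]
    nlinarith
  have h2 : (fun x : ℝ => B * Real.log x) =o[atTop] (fun x => x ^ s) :=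
    (isLittleO_log_rpow_atTop hs).const_mul_left B
  have h3 := h2.bound (show (0 : ℝ) < 1 / 2 by norm_num)
  filter_upwards [h1, h3, eventually_ge_atTop 0] with x hx1 hx hx0
  rw [Real.norm_of_nonneg (Real.rpow_nonneg hx0 s)] at hx
  have := (le_abs_self _).trans hx
  linarith

theorem final (d : ℕ) (hd : 1 ≤ d) (η : ℝ) (hη : 0 < η) :
    ∃ n₀ : ℕ, ∀ n : ℕ, n₀ ≤ n →
      ∃ m : ℕ, (m : ℝ) ≤ Real.exp (Real.log n ^ (1 / (d : ℝ) + η)) ∧
        ∃ c : Finset (Fin n) → Fin m,
          ∀ S : Finset (Fin n), S.card = 2 * d →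
            d + 1 ≤ ((S.powersetCard (2 * d - 1)).image c).card := by
  classical
  have hd0 : (0 : ℝ) < d := by exact_mod_cast hd
  have he : 1 / (1 / (d : ℝ) + η / 2) < d := by
    rw [div_lt_iff₀ (by positivity)]
    have : (d : ℝ) * (1 / d + η / 2) = 1 + d * η / 2 := by field_simp
    rw [this]
    have : 0 < (d : ℝ) * η / 2 := by positivity
    linarith
  obtain ⟨α, β, hα, hβ, hαβ, C, hC⟩ := exists_grow d hd _ he
  have hα0 : (0 : ℝ) < α := by exact_mod_cast hα
  have hβ0 : (0 : ℝ) < β := by exact_mod_cast hβ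
  set s : ℝ := 1 / (d : ℝ) + η with hs
  set s' : ℝ := (β : ℝ) / α with hs'
  have hs0 : 0 < s := by positivity
  have hs'0 : 0 < s' := by positivity
  have hss : s' < s := by
    have h1 : s' < 1 / (d : ℝ) + η / 2 := by
      rw [hs', div_lt_iff₀ hα0]
      rw [div_mul_eq_mul_div, one_mul, div_lt_iff₀ (by positivity)] at hαβ
      linarith
    rw [hs]; linarith
  set A : ℝ := d * C * Real.log 2 * (2 ^ β * 4 ^ s') with hA
  set B : ℝ := Real.log 2 + (2 * d - 1) * (Real.log 4 + 1) with hB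
  have hev := eventually_bound A B s s' hs0 hss
  have htend : Tendsto (fun n : ℕ => Real.log n) atTop atTop :=
    Real.tendsto_log_atTop.comp tendsto_natCast_atTop_atTop
  have hev2 := (htend.eventually (hev.and (eventually_ge_atTop (Real.exp 1)))).and
    (eventually_ge_atTop 2)
  obtain ⟨n₀, hn₀⟩ := hev2.exists_forall_of_atTop
  refine ⟨n₀, fun n hn => ?_⟩
  obtain ⟨⟨hb, hx1⟩, hn2⟩ := hn₀ n hn
  set x : ℝ := Real.log n with hx
  have hxe : 1 ≤ Real.log x := by
    rw [← Real.log_exp 1]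
    exact Real.log_le_log (Real.exp_pos 1) hx1
  have hx2 : (2 : ℝ) ≤ x := by
    have := Real.add_one_le_exp (1 : ℝ)
    linarith
  have hx0 : 0 < x := by linarith
  set L := Nat.clog 2 n with hL
  have hnL : n ≤ 2 ^ L := Nat.le_pow_clog (by norm_num) n
  have hL1 : 1 ≤ L := Nat.clog_pos (by norm_num) hn2
  have hLx : (L : ℝ) + 1 ≤ 4 * x := by
    have h1 : 2 ^ (L - 1) < n := Nat.pow_pred_clog_lt_self (by norm_num) hn2
    have h2 : ((2 : ℝ)) ^ (L - 1) ≤ n := by exact_mod_cast h1.le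
    have h3 : ((L - 1 : ℕ) : ℝ) * Real.log 2 ≤ x := by
      rw [hx, ← Real.log_pow]
      exact Real.log_le_log (by positivity) h2
    have h4 : ((L - 1 : ℕ) : ℝ) = (L : ℝ) - 1 := by
      rw [Nat.cast_sub hL1]; simp
    rw [h4] at h3
    have h5 : (1 : ℝ) / 2 ≤ Real.log 2 := by
      have := Real.log_two_gt_d9; linarith
    have h6 : (0 : ℝ) ≤ (L : ℝ) - 1 := by
      have : (1 : ℝ) ≤ L := by exact_mod_cast hL1
      linarith
    nlinarith
  have hL0 : (0 : ℝ) < L := by exact_mod_cast hL1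
  -- the parameter `u`
  set u : ℕ := ⌈(L : ℝ) ^ (1 / (α : ℝ))⌉₊ with hu
  have hLr1 : (1 : ℝ) ≤ (L : ℝ) ^ (1 / (α : ℝ)) :=
    Real.one_le_rpow (by exact_mod_cast hL1) (by positivity)
  have hu1 : 1 ≤ u := by
    have : (1 : ℝ) ≤ u := hLr1.trans (Nat.le_ceil _)
    exact_mod_cast this
  have hLu : L ≤ u ^ α := by
    have h1 : (L : ℝ) ≤ (u : ℝ) ^ α := by
      calc (L : ℝ) = ((L : ℝ) ^ (1 / (α : ℝ))) ^ α := by
            rw [← Real.rpow_natCast, ← Real.rpow_mul hL0.le, one_div_mul_cancel hα0.ne',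
              Real.rpow_one]
        _ ≤ (u : ℝ) ^ α := pow_le_pow_left₀ (by positivity) (Nat.le_ceil _) _
    exact_mod_cast h1
  have hu2 : (u : ℝ) ≤ 2 * (L : ℝ) ^ (1 / (α : ℝ)) := by
    have := (Nat.ceil_lt_add_one (show (0 : ℝ) ≤ (L : ℝ) ^ (1 / (α : ℝ)) by positivity)).le
    linarith
  have hu3 : (u : ℝ) ^ β ≤ 2 ^ β * 4 ^ s' * x ^ s' := by
    calc (u : ℝ) ^ β ≤ (2 * (L : ℝ) ^ (1 / (α : ℝ))) ^ β := pow_le_pow_left₀ (by positivity) hu2 _
      _ = 2 ^ β * (L : ℝ) ^ s' := by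
          rw [mul_pow, ← Real.rpow_natCast ((L : ℝ) ^ (1 / (α : ℝ))), ← Real.rpow_mul hL0.le]
          congr 2
          rw [hs']; field_simp
      _ ≤ 2 ^ β * (4 * x) ^ s' := by
          refine mul_le_mul_of_nonneg_left ?_ (by positivity)
          exact Real.rpow_le_rpow hL0.le (by linarith) hs'0.le
      _ = 2 ^ β * 4 ^ s' * x ^ s' := by
          rw [Real.mul_rpow (by norm_num) hx0.le]; ring
  have hsep : Sep (Fin d) (Fin n) (Fin (2 ^ (C * u ^ β))) :=
    (hC u hu1).card_mono (by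
      simp only [Fintype.card_fin]
      exact hnL.trans (Nat.pow_le_pow_right (by norm_num) hLu)) (le_refl _)
  obtain ⟨c, hc⟩ := coloring (L := L) hd hnL hsep
  let T : Type := Option ((Fin (2 * d - 1) → Fin (L + 1)) × (Fin d → Fin (2 ^ (C * u ^ β))))
  have hcardT : Fintype.card T = (L + 1) ^ (2 * d - 1) * (2 ^ (C * u ^ β)) ^ d + 1 := by
    simp [T]
  refine ⟨Fintype.card T, ?_, fun A => Fintype.equivFin T (c A), ?_⟩
  · have h1 : (Fintype.card T : ℝ) ≤ 2 * ((4 * x) ^ (2 * d - 1) * 2 ^ (d * C * u ^ β)) := by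
      rw [hcardT]
      push_cast
      have h2 : ((L : ℝ) + 1) ^ (2 * d - 1) ≤ (4 * x) ^ (2 * d - 1) :=
        pow_le_pow_left₀ (by positivity) hLx _
      have h3 : ((2 : ℝ) ^ (C * u ^ β)) ^ d = 2 ^ (d * C * u ^ β) := by
        rw [← pow_mul]; congr 1; ring
      rw [h3]
      have h4 : (1 : ℝ) ≤ (4 * x) ^ (2 * d - 1) * 2 ^ (d * C * u ^ β) :=
        one_le_mul_of_one_le_of_one_le (one_le_pow₀ (by linarith)) (one_le_pow₀ (by norm_num))
      have h5 : ((L : ℝ) + 1) ^ (2 * d - 1) * 2 ^ (d * C * u ^ β) ≤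
          (4 * x) ^ (2 * d - 1) * 2 ^ (d * C * u ^ β) :=
        mul_le_mul_of_nonneg_right h2 (by positivity)
      linarith
    refine h1.trans ?_
    have hpos : (0 : ℝ) < 2 * ((4 * x) ^ (2 * d - 1) * 2 ^ (d * C * u ^ β)) := by positivity
    rw [← Real.log_le_iff_le_exp hpos]
    rw [Real.log_mul (by norm_num) (by positivity), Real.log_mul (by positivity) (by positivity),
      Real.log_pow, Real.log_pow, Real.log_mul (by norm_num) hx0.ne']
    refine le_trans ?_ hb
    have h6 : (((2 * d - 1 : ℕ)) : ℝ) = 2 * d - 1 := by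
      rw [Nat.cast_sub (by omega)]; push_cast; ring
    rw [h6]
    push_cast
    have h7 : (0 : ℝ) ≤ 2 * d - 1 := by
      have : (1 : ℝ) ≤ d := by exact_mod_cast hd
      linarith
    have hl2 : 0 ≤ Real.log 2 := Real.log_nonneg (by norm_num)
    have hl4 : 0 ≤ Real.log 4 := Real.log_nonneg (by norm_num)
    have h8 : Real.log 2 ≤ Real.log 2 * Real.log x := le_mul_of_one_le_right hl2 hxe
    have h9 : (2 * (d : ℝ) - 1) * (Real.log 4 + Real.log x) ≤
        (2 * d - 1) * (Real.log 4 + 1) * Real.log x := by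
      rw [mul_assoc]
      refine mul_le_mul_of_nonneg_left ?_ h7
      have : Real.log 4 ≤ Real.log 4 * Real.log x := le_mul_of_one_le_right hl4 hxe
      linarith
    have h10 : (d : ℝ) * C * (u : ℝ) ^ β * Real.log 2 ≤ A * x ^ s' := by
      have : (d : ℝ) * C * (u : ℝ) ^ β * Real.log 2 ≤
          d * C * (2 ^ β * 4 ^ s' * x ^ s') * Real.log 2 := by
        refine mul_le_mul_of_nonneg_right ?_ hl2
        exact mul_le_mul_of_nonneg_left hu3 (by positivity)
      refine this.trans (le_of_eq ?_)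
      rw [hA]; ring
    have h11 : B * Real.log x = Real.log 2 * Real.log x +
        (2 * d - 1) * (Real.log 4 + 1) * Real.log x := by rw [hB]; ring
    rw [h11]
    linarith
  · intro S hS
    have := hc S hS
    refine this.trans ?_
    have himg : ((S.powersetCard (2 * d - 1)).image fun A => Fintype.equivFin T (c A)) =
        ((S.powersetCard (2 * d - 1)).image c).image (Fintype.equivFin T) := by
      rw [Finset.image_image]; rfl
    rw [himg, Finset.card_image_of_injective _ (Fintype.equivFin T).injective]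

end Pool.Agent.Lib.MP_d8e360_co
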