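import Pool.Agent.Lib.MP_d8e360_co.Sep

/-!
Growth of separating systems.
-/

set_option autoImplicit false

namespace Pool.Agent.Lib.MP_d8e360_co

theorem exists_inj_of_card_le {X Y : Type} [Fintype X] [Fintype Y]
    (h : Fintype.card X ≤ Fintype.card Y) : ∃ f : X → Y, Function.Injective f := by
  obtain ⟨f⟩ := Function.Embedding.nonempty_of_card_le h
  exact ⟨f, f.injective⟩

theorem Sep.card_mono {ι X X' R R' : Type} [Fintype X] [Fintype X'] [Fintype R] [Fintype R']
    (h : Sep ι X R) (hX : Fintype.card X' ≤ Fintype.card X)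
    (hR : Fintype.card R ≤ Fintype.card R') : Sep ι X' R' := by
  obtain ⟨f, hf⟩ := exists_inj_of_card_le hX
  obtain ⟨g, hg⟩ := exists_inj_of_card_le hR
  exact h.transport (Equiv.refl ι) hf hg

/-- `2^(C u^β)` colours are enough for `2^(u^α)` points. -/
def Grow (d α β : ℕ) : Prop :=
  ∃ C : ℕ, ∀ u : ℕ, 1 ≤ u → Sep (Fin d) (Fin (2 ^ (u ^ α))) (Fin (2 ^ (C * u ^ β)))

theorem grow_base : Grow 1 1 1 :=
  ⟨1, fun u _ => (Sep.trivial (Fin 1) (Fin (2 ^ (u ^ 1)))).card_mono (le_refl _) (by simp)⟩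

theorem Grow.scale {d α β : ℕ} (h : Grow d α β) (m : ℕ) : Grow d (m * α) (m * β) := by
  obtain ⟨C, hC⟩ := h
  refine ⟨C, fun u hu => ?_⟩
  have := hC (u ^ m) (Nat.one_le_pow _ _ hu)
  rwa [← pow_mul, ← pow_mul] at this

theorem linear_le_two_pow (K l : ℕ) (h : 4 * K ≤ l) : K * (l + 1) ≤ 2 ^ l := by
  have h1 : l / 2 < 2 ^ (l / 2) := Nat.lt_two_pow_self
  have h2 : (l / 2 + 1) * (l / 2 + 1) ≤ 2 ^ (l / 2) * 2 ^ (l / 2) := Nat.mul_le_mul h1 h1
  rw [← pow_add] at h2
  have h3 : 2 ^ (l / 2 + l / 2) ≤ 2 ^ l := Nat.pow_le_pow_right (by norm_num) (by omega)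
  have h4 : l + 1 ≤ 2 * (l / 2 + 1) := by omega
  have h5 : 2 * K ≤ l / 2 + 1 := by omega
  calc K * (l + 1) ≤ K * (2 * (l / 2 + 1)) := Nat.mul_le_mul_left _ h4
    _ = (2 * K) * (l / 2 + 1) := by ring
    _ ≤ (l / 2 + 1) * (l / 2 + 1) := Nat.mul_le_mul_right _ h5
    _ ≤ 2 ^ l := h2.trans h3

theorem sum_pow_le (a d : ℕ) (ha : 1 ≤ a) :
    (∑ s ∈ Finset.range (d + 1), a ^ s) ≤ (d + 1) * a ^ d := by
  calc (∑ s ∈ Finset.range (d + 1), a ^ s) ≤ ∑ s ∈ Finset.range (d + 1), a ^ d := by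
        refine Finset.sum_le_sum ?_
        intro s hs
        exact Nat.pow_le_pow_right ha (by rw [Finset.mem_range] at hs; omega)
    _ = (d + 1) * a ^ d := by simp

theorem Grow.step {d α β γ : ℕ} (h : Grow d α β) (hγ : d * γ + 1 ≤ α) (hd : 1 ≤ d) :
    Grow (d + 1) (α + γ) β := by
  obtain ⟨C, hC⟩ := h
  set K : ℕ := (γ * (d + 1) + (d + 1)) * (d + 1) + 1 with hK
  set u₀ : ℕ := 2 ^ (4 * K) with hu₀
  refine ⟨C * (d + 1) + u₀ ^ (α + γ), fun u hu => ?_⟩
  have hub : 1 ≤ u ^ β := Nat.one_le_pow _ _ hu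
  by_cases hlt : u < u₀
  · -- small `u`
    refine (Sep.trivial (Fin (d + 1)) (Fin (2 ^ (u ^ (α + γ))))).card_mono (le_refl _) ?_
    simp only [Fintype.card_fin]
    refine Nat.pow_le_pow_right (by norm_num) ?_
    calc u ^ (α + γ) ≤ u₀ ^ (α + γ) := Nat.pow_le_pow_left hlt.le _
      _ ≤ (C * (d + 1) + u₀ ^ (α + γ)) * 1 := by omega
      _ ≤ (C * (d + 1) + u₀ ^ (α + γ)) * u ^ β := Nat.mul_le_mul_left _ hub
  · push Not at hlt
    set l := Nat.log 2 u with hl
    have hl1 : 2 ^ l ≤ u := Nat.pow_log_le_self 2 (by omega)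
    have hl2 : u < 2 ^ (l + 1) := Nat.lt_pow_succ_log_self (by norm_num) u
    have hl3 : 4 * K ≤ l := by
      rw [hl]
      exact (Nat.le_log_iff_pow_le (by norm_num) (by omega)).2 hlt
    have hKu : K * (l + 1) ≤ u := (linear_le_two_pow K l hl3).trans hl1
    set a := u ^ γ with ha
    have ha1 : 1 ≤ a := Nat.one_le_pow _ _ hu
    set W := (l + 1) * (γ * (d + 1)) + (d + 1) with hW
    set w := 2 ^ W with hw
    set X := u ^ α with hX
    have hX1 : 1 ≤ X := Nat.one_le_pow _ _ hu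
    have hWu : W * (d + 1) + 1 ≤ u := by
      refine le_trans ?_ hKu
      rw [hK, hW]
      nlinarith [Nat.zero_le (l * (γ * (d + 1))), Nat.zero_le (l * ((d + 1) * (d + 1))),
        Nat.zero_le l, mul_nonneg (Nat.zero_le l) (Nat.zero_le ((d + 1) * (d + 1)))]
    -- the sum
    have hsum := sum_pow_le a d ha1
    have hwbig : a * (∑ s ∈ Finset.range (d + 1), a ^ s) < w := by
      calc a * (∑ s ∈ Finset.range (d + 1), a ^ s) ≤ a * ((d + 1) * a ^ d) :=
            Nat.mul_le_mul_left _ hsum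
        _ = (d + 1) * a ^ (d + 1) := by ring
        _ < 2 ^ (d + 1) * a ^ (d + 1) :=
            Nat.mul_lt_mul_of_pos_right Nat.lt_two_pow_self (by positivity)
        _ = 2 ^ (d + 1) * u ^ (γ * (d + 1)) := by rw [ha, ← pow_mul]
        _ ≤ 2 ^ (d + 1) * (2 ^ (l + 1)) ^ (γ * (d + 1)) :=
            Nat.mul_le_mul_left _ (Nat.pow_le_pow_left hl2.le _)
        _ = w := by rw [hw, hW, ← pow_mul, ← pow_add]; congr 1; ring
    obtain ⟨p, hp, hp1, hp2⟩ := Nat.exists_prime_lt_and_le_two_mul (2 ^ (X - 1)) (by positivity)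
    have hp3 : p ≤ 2 ^ X := by
      refine hp2.trans (le_of_eq ?_)
      rw [← pow_succ']
      congr 1
      omega
    have : Fact p.Prime := ⟨hp⟩
    have hud : a ^ d ≤ u ^ (α - 1) := by
      rw [ha, ← pow_mul]
      refine Nat.pow_le_pow_right hu ?_
      have : γ * d = d * γ := Nat.mul_comm _ _
      omega
    have huα : u ^ (α - 1) * u = X := by
      rw [hX, ← pow_succ]
      congr 1
      omega
    have hwp : w ^ (∑ s ∈ Finset.range (d + 1), a ^ s) ≤ p := by
      have h1 : W * (∑ s ∈ Finset.range (d + 1), a ^ s) ≤ X - 1 := by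
        have h2 : W * (∑ s ∈ Finset.range (d + 1), a ^ s) ≤ W * ((d + 1) * u ^ (α - 1)) :=
          Nat.mul_le_mul_left _ (hsum.trans (Nat.mul_le_mul_left _ hud))
        have h3 : W * ((d + 1) * u ^ (α - 1)) + 1 ≤ X := by
          calc W * ((d + 1) * u ^ (α - 1)) + 1 = u ^ (α - 1) * (W * (d + 1)) + 1 := by ring
            _ ≤ u ^ (α - 1) * (W * (d + 1)) + u ^ (α - 1) * 1 := by
                have : 1 ≤ u ^ (α - 1) := Nat.one_le_pow _ _ hu
                omega
            _ = u ^ (α - 1) * (W * (d + 1) + 1) := by ring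
            _ ≤ u ^ (α - 1) * u := Nat.mul_le_mul_left _ hWu
            _ = X := huα
        omega
      calc w ^ (∑ s ∈ Finset.range (d + 1), a ^ s)
          = 2 ^ (W * (∑ s ∈ Finset.range (d + 1), a ^ s)) := by rw [hw, ← pow_mul]
        _ ≤ 2 ^ (X - 1) := Nat.pow_le_pow_right (by norm_num) h1
        _ ≤ p := hp1.le
    have hbase : Sep (Fin d) (ZMod p) (Fin (2 ^ (C * u ^ β))) :=
      (hC u hu).card_mono (by rw [ZMod.card, Fintype.card_fin]; exact hp3) (le_refl _)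
    have : Nonempty (Fin (2 ^ (C * u ^ β))) := ⟨⟨0, by positivity⟩⟩
    refine (hbase.step hwbig hwp).card_mono ?_ ?_
    · simp only [Fintype.card_fin, Fintype.card_fun, ZMod.card]
      have h1 : u ^ (α + γ) ≤ (X - 1) * (a + 1) := by
        have h2 : u ^ (α + γ) = X * a := by rw [pow_add]
        have h3 : a + 1 ≤ X := by
          have h4 : a ≤ u ^ (α - 1) := by
            rw [ha]
            refine Nat.pow_le_pow_right hu ?_
            have : γ ≤ d * γ := Nat.le_mul_of_pos_left _ hd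
            omega
          have h5 : 2 ≤ u := by
            have : 1 ≤ K := by omega
            nlinarith
          calc a + 1 ≤ u ^ (α - 1) + u ^ (α - 1) := by
                have : 1 ≤ u ^ (α - 1) := Nat.one_le_pow _ _ hu
                omega
            _ = u ^ (α - 1) * 2 := by ring
            _ ≤ u ^ (α - 1) * u := Nat.mul_le_mul_left _ h5
            _ = X := huα
        obtain ⟨Y, hY⟩ : ∃ Y, X = Y + 1 := ⟨X - 1, by omega⟩
        rw [h2, hY, Nat.add_sub_cancel]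
        nlinarith
      calc 2 ^ u ^ (α + γ) ≤ 2 ^ ((X - 1) * (a + 1)) := Nat.pow_le_pow_right (by norm_num) h1
        _ = (2 ^ (X - 1)) ^ (a + 1) := by rw [pow_mul]
        _ ≤ p ^ (a + 1) := Nat.pow_le_pow_left hp1.le _
    · simp only [Fintype.card_fin, Fintype.card_fun]
      rw [← pow_mul]
      refine Nat.pow_le_pow_right (by norm_num) ?_
      nlinarith [Nat.zero_le (u₀ ^ (α + γ) * u ^ β)]

end Pool.Agent.Lib.MP_d8e360_co
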