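import Mathlib

/-!
Separating systems: the core of the upper bound for `f_{2d-1}(n, 2d, d+1)`.
-/

set_option autoImplicit false

namespace Pool.Agent.Lib.MP_d8e360_co

/-- `Sep ι X R`: for every player `i` and every family of pairs there is a colouring of `X` by `R`
which depends only on the pairs of the other players, such that for every family of pairs of
distinct elements some player's colouring separates his own pair. -/
def Sep (ι X R : Type) : Prop :=
  ∃ χ : ι → (ι → X × X) → X → R,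
    (∀ i e e', (∀ j, j ≠ i → e j = e' j) → χ i e = χ i e') ∧
    ∀ e : ι → X × X, (∀ j, (e j).1 ≠ (e j).2) → ∃ i, χ i e (e i).1 ≠ χ i e (e i).2

theorem Sep.transport {ι ι' X X' R R' : Type} (h : Sep ι X R) (σ : ι' ≃ ι) {f : X' → X}
    (hf : Function.Injective f) {g : R → R'} (hg : Function.Injective g) : Sep ι' X' R' := by
  obtain ⟨χ, h1, h2⟩ := h
  refine ⟨fun i e y => g (χ (σ i) (fun j => (f (e (σ.symm j)).1, f (e (σ.symm j)).2)) (f y)),
    ?_, ?_⟩
  · intro i e e' hee
    have := h1 (σ i) (fun j => (f (e (σ.symm j)).1, f (e (σ.symm j)).2))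
      (fun j => (f (e' (σ.symm j)).1, f (e' (σ.symm j)).2)) (by
        intro j hj
        have : σ.symm j ≠ i := by
          intro h; apply hj; rw [← h]; simp
        simp [hee _ this])
    funext y
    simp [this]
  · intro e he
    obtain ⟨i, hi⟩ := h2 (fun j => (f (e (σ.symm j)).1, f (e (σ.symm j)).2))
      (fun j h => he (σ.symm j) (hf h))
    refine ⟨σ.symm i, ?_⟩
    intro h
    apply hi
    have h' := hg h
    simpa using h'

theorem Sep.trivial (ι X : Type) [Nonempty ι] : Sep ι X X :=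
  ⟨fun _ _ y => y, fun _ _ _ _ => rfl, fun _ he => ⟨Classical.arbitrary ι, he _⟩⟩

/-- Labels: trees of depth `D` with branching `a` and nodes labelled by `Fin w`. -/
abbrev Lab (D a w : ℕ) : Type := (s : Fin (D + 1)) → ((Fin s → Fin a) → Fin w)

theorem card_lab (D a w : ℕ) :
    Fintype.card (Lab D a w) = w ^ (∑ s ∈ Finset.range (D + 1), a ^ s) := by
  rw [Fintype.card_pi]
  simp only [Fintype.card_fun, Fintype.card_fin]
  rw [Finset.prod_pow_eq_pow_sum, ← Fin.sum_univ_eq_sum_range (fun s => a ^ s) (D + 1)]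

theorem exists_enum {L : Type} [Nonempty L] [DecidableEq L] (a : ℕ) (A : Finset L)
    (hA : A.card ≤ a) : ∃ x : Fin a → L, ∀ y ∈ A, ∃ i, x i = y := by
  classical
  refine ⟨fun i => if h : (i : ℕ) < A.card then (A.equivFin.symm ⟨i, h⟩ : L) else
    Classical.arbitrary L, ?_⟩
  intro y hy
  have hlt : ((A.equivFin ⟨y, hy⟩ : Fin A.card) : ℕ) < A.card := (A.equivFin ⟨y, hy⟩).2
  refine ⟨⟨(A.equivFin ⟨y, hy⟩ : Fin A.card), lt_of_lt_of_le hlt hA⟩, ?_⟩
  simp [hlt]

/-- One step of the construction: a label `T` and a value `v` for the set `A`. -/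
theorem exists_label (D a w : ℕ) (hw : a * (∑ s ∈ Finset.range (D + 1), a ^ s) < w)
    (A : Finset (Lab D a w)) (hA : A.card ≤ a) :
    ∃ (T : Lab D a w) (v : Fin w), (∀ q, T 0 q = v) ∧
      (∀ y ∈ A, ∀ (s : Fin (D + 1)) (q : Fin s → Fin a), y s q ≠ v) ∧
      (∀ y ∈ A, ∀ (s : ℕ) (hs : s + 1 < D + 1) (q : Fin s → Fin a),
        ∃ q' : Fin (s + 1) → Fin a, T ⟨s + 1, hs⟩ q' = y ⟨s, by omega⟩ q) := by
  classical
  have hwpos : 0 < w := by omega
  have : Nonempty (Lab D a w) := ⟨fun _ _ => ⟨0, hwpos⟩⟩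
  obtain ⟨x, hx⟩ := exists_enum a A hA
  -- forbidden values
  let F : Finset (Fin w) := Finset.univ.image
    (fun z : Fin a × (Σ s : Fin (D + 1), (Fin s → Fin a)) => x z.1 z.2.1 z.2.2)
  have hF : F.card < w := by
    refine lt_of_le_of_lt Finset.card_image_le ?_
    rw [Finset.card_univ, Fintype.card_prod, Fintype.card_sigma]
    simp only [Fintype.card_fun, Fintype.card_fin]
    rw [Fin.sum_univ_eq_sum_range (fun s => a ^ s) (D + 1)]
    exact hw
  have : ∃ v : Fin w, v ∉ F := by
    by_contra hcon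
    push Not at hcon
    have : F = Finset.univ := Finset.eq_univ_iff_forall.2 hcon
    rw [this, Finset.card_univ, Fintype.card_fin] at hF
    exact lt_irrefl _ hF
  obtain ⟨v, hv⟩ := this
  let T : Lab D a w := fun s =>
    match s with
    | ⟨0, _⟩ => fun _ => v
    | ⟨s + 1, hs⟩ => fun q => x (q 0) ⟨s, by omega⟩ (fun i => q i.succ)
  refine ⟨T, v, ?_, ?_, ?_⟩
  · intro q; rfl
  · intro y hy s q h
    obtain ⟨i, hi⟩ := hx y hy
    apply hv
    rw [← h, ← hi]
    exact Finset.mem_image.2 ⟨(i, ⟨s, q⟩), Finset.mem_univ _, rfl⟩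
  · intro y hy s hs q
    obtain ⟨i, hi⟩ := hx y hy
    refine ⟨Fin.cons i q, ?_⟩
    show x ((Fin.cons i q : Fin (s + 1) → Fin a) 0) ⟨s, by omega⟩
      (fun j => (Fin.cons i q : Fin (s + 1) → Fin a) j.succ) = _
    simp [hi]

/-- The acyclic choice of coordinates. -/
theorem acyclic (D a w : ℕ) (hw : a * (∑ s ∈ Finset.range (D + 1), a ^ s) < w) :
    ∃ t : Finset (Lab D a w) → Lab D a w,
      ∀ A : Fin (D + 1) → Finset (Lab D a w), (∀ i, (A i).card ≤ a) →
        ∃ i, ∀ j, t (A i) ∉ A j := by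
  classical
  have hwpos : 0 < w := by omega
  choose T v h0 h1 h2 using fun A : {A : Finset (Lab D a w) // A.card ≤ a} =>
    exists_label D a w hw A.1 A.2
  refine ⟨fun A => if h : A.card ≤ a then T ⟨A, h⟩ else fun _ _ => ⟨0, hwpos⟩, ?_⟩
  intro A hA
  by_contra hcon
  push Not at hcon
  choose nx hnx using hcon
  let κ : ℕ → Fin (D + 1) := fun m => nx^[m] 0
  have hκ : ∀ m, κ (m + 1) = nx (κ m) := fun m => Function.iterate_succ_apply' nx m 0
  let y : ℕ → Lab D a w := fun m => T ⟨A (κ m), hA _⟩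
  have hy : ∀ m, y m ∈ A (κ (m + 1)) := by
    intro m
    have := hnx (κ m)
    rw [dif_pos (hA _)] at this
    rw [hκ]
    exact this
  have key : ∀ m s : ℕ, ∀ hs : s < D + 1, ∃ q : Fin s → Fin a,
      y (m + s) ⟨s, hs⟩ q = v ⟨A (κ m), hA _⟩ := by
    intro m s
    induction s with
    | zero =>
      intro hs
      exact ⟨fun i => i.elim0, h0 _ _⟩
    | succ s ih =>
      intro hs
      obtain ⟨q, hq⟩ := ih (by omega)
      obtain ⟨q', hq'⟩ := h2 ⟨A (κ (m + s + 1)), hA _⟩ (y (m + s)) (hy (m + s)) s hs q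
      refine ⟨q', ?_⟩
      rw [← hq]
      exact hq'
  have hnot : ¬ Function.Injective (fun m : Fin (D + 2) => κ m) := by
    intro hinj
    have := Fintype.card_le_of_injective _ hinj
    simp at this
  rw [Function.Injective] at hnot
  push Not at hnot
  obtain ⟨m, m', hmm, hne⟩ := hnot
  -- wlog m < m'
  have main : ∀ m m' : ℕ, m < m' → m' < D + 2 → κ m = κ m' → False := by
    intro m m' hlt hlt' heq
    obtain ⟨s, rfl⟩ : ∃ s, m' = m + s + 1 := ⟨m' - m - 1, by omega⟩
    obtain ⟨q, hq⟩ := key m s (by omega)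
    have hmem := hy (m + s)
    rw [← heq] at hmem
    exact h1 ⟨A (κ m), hA _⟩ _ hmem ⟨s, by omega⟩ q hq
  rcases lt_trichotomy (m : ℕ) (m' : ℕ) with h | h | h
  · exact main m m' h m'.2 hmm
  · exact hne (Fin.ext h)
  · exact main m' m h m.2 hmm.symm

/-- Evaluation of the polynomial with coefficients `x`. -/
def ev {p a : ℕ} (x : Fin (a + 1) → ZMod p) (t : ZMod p) : ZMod p := ∑ i, x i * t ^ (i : ℕ)

theorem card_agree {p a : ℕ} [Fact p.Prime] {x y : Fin (a + 1) → ZMod p} (hxy : x ≠ y)
    (S : Finset (ZMod p)) (hS : ∀ t ∈ S, ev x t = ev y t) : S.card ≤ a := by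
  classical
  let P : Polynomial (ZMod p) := ∑ i : Fin (a + 1), Polynomial.C (x i - y i) * Polynomial.X ^ (i : ℕ)
  have hcoeff : ∀ i : Fin (a + 1), P.coeff i = x i - y i := by
    intro i
    simp only [P, Polynomial.finsetSum_coeff, Polynomial.coeff_C_mul, Polynomial.coeff_X_pow]
    rw [Finset.sum_eq_single i]
    · simp
    · intro j _ hj
      have : (i : ℕ) ≠ j := fun h => hj (Fin.ext h.symm)
      simp [this]
    · intro h; exact absurd (Finset.mem_univ _) h
  have hP : P ≠ 0 := by
    intro h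
    apply hxy
    funext i
    have := hcoeff i
    rw [h, Polynomial.coeff_zero] at this
    exact (sub_eq_zero.1 this.symm)
  have hdeg : P.natDegree ≤ a := by
    refine Polynomial.natDegree_sum_le_of_forall_le _ _ ?_
    intro i _
    refine (Polynomial.natDegree_C_mul_X_pow_le _ _).trans ?_
    have := i.2
    omega
  have hroots : S ⊆ P.roots.toFinset := by
    intro t ht
    rw [Multiset.mem_toFinset, Polynomial.mem_roots hP, Polynomial.IsRoot.def]
    simp only [P, Polynomial.eval_finsetSum, Polynomial.eval_mul, Polynomial.eval_C,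
      Polynomial.eval_pow, Polynomial.eval_X]
    have := hS t ht
    simp only [ev] at this
    rw [← sub_eq_zero, ← Finset.sum_sub_distrib] at this
    rw [← this]
    refine Finset.sum_congr rfl ?_
    intro i _
    ring
  calc S.card ≤ P.roots.toFinset.card := Finset.card_le_card hroots
    _ ≤ Multiset.card P.roots := Multiset.toFinset_card_le _
    _ ≤ P.natDegree := Polynomial.card_roots' P
    _ ≤ a := hdeg

/-- The recursion step. -/
theorem Sep.step {d p a w : ℕ} [Fact p.Prime] {R : Type} [Nonempty R]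
    (h : Sep (Fin d) (ZMod p) R) (hw : a * (∑ s ∈ Finset.range (d + 1), a ^ s) < w)
    (hp : w ^ (∑ s ∈ Finset.range (d + 1), a ^ s) ≤ p) :
    Sep (Fin (d + 1)) (Fin (a + 1) → ZMod p) (Fin (d + 1) → R) := by
  classical
  obtain ⟨t, ht⟩ := acyclic d a w hw
  have hcard : Fintype.card (Lab d a w) ≤ Fintype.card (ZMod p) := by
    rw [card_lab, ZMod.card]; exact hp
  obtain ⟨emb⟩ := Function.Embedding.nonempty_of_card_le hcard
  let X : Type := Fin (a + 1) → ZMod p
  -- agreement labels
  let B : X × X → Finset (Lab d a w) := fun z =>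
    Finset.univ.filter (fun l => ev z.1 (emb l) = ev z.2 (emb l))
  have hB : ∀ z : X × X, z.1 ≠ z.2 → (B z).card ≤ a := by
    intro z hz
    rw [← Finset.card_map emb]
    refine card_agree hz _ ?_
    intro u hu
    obtain ⟨l, hl, rfl⟩ := Finset.mem_map.1 hu
    exact (Finset.mem_filter.1 hl).2
  let τ : X × X → ZMod p := fun z => emb (t (B z))
  have hsub : ∀ κ : Fin (d + 1), Sep {j : Fin (d + 1) // j ≠ κ} (ZMod p) R := by
    intro κ
    exact h.transport (finSuccAboveEquiv κ).symm (f := id) (fun _ _ h => h)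
      (g := id) (fun _ _ h => h)
  choose χ hχ1 hχ2 using hsub
  refine ⟨fun i e y κ => if h : i = κ then Classical.arbitrary R else
    χ κ ⟨i, h⟩ (fun j => (ev (e j).1 (τ (e κ)), ev (e j).2 (τ (e κ)))) (ev y (τ (e κ))), ?_, ?_⟩
  · intro i e e' hee
    funext y κ
    by_cases hi : i = κ
    · simp [hi]
    · have hκ : e κ = e' κ := hee κ (fun h => hi h.symm)
      simp only [dif_neg hi]
      rw [hκ]
      rw [hχ1 κ ⟨i, hi⟩ (fun j => (ev (e j).1 (τ (e' κ)), ev (e j).2 (τ (e' κ))))
        (fun j => (ev (e' j).1 (τ (e' κ)), ev (e' j).2 (τ (e' κ))))]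
      intro j hj
      have : e (j : Fin (d + 1)) = e' j := by
        apply hee
        intro h
        exact hj (Subtype.ext h)
      rw [this]
  · intro e he
    obtain ⟨κ, hκ⟩ := ht (fun j => B (e j)) (fun j => hB _ (he j))
    obtain ⟨⟨i, hi⟩, hsep⟩ := hχ2 κ
      (fun j => (ev (e j).1 (τ (e κ)), ev (e j).2 (τ (e κ)))) (by
        intro j
        have := hκ j
        simp only [B, Finset.mem_filter, Finset.mem_univ, true_and] at this
        exact this)
    refine ⟨i, ?_⟩
    intro heq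
    have := congrFun heq κ
    simp only [dif_neg hi] at this
    exact hsep this

end Pool.Agent.Lib.MP_d8e360_co
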